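import Pool.Agent.HAF2.Conv

/-!
# Classes of `BSO(q)` of degree `2 d` with `d + ⌊d / 4⌋ ≤ q` survive on Haefliger structures

Let `F` be an invariant symmetric form of degree `d = e + 1` on the Lie algebra of `SO(q)` (that
is, a real characteristic class of degree `2 d` of oriented bundles of rank `q`: Pontrjagin and
Euler classes) which does not vanish identically. If `d + ⌊d / 4⌋ ≤ q`, then there is a smooth
codimension `q` Haefliger structure with oriented normal bundle on a manifold, and a metric
connection on the normal bundle, whose Chern-Weil form `F(Ω)` is not exact.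
-/

namespace Pool.Agent.Results.MP_edd9c2_gt.AllClassesRange

open Pool.Agent.HAF2.St

theorem result (q e : ℕ) (F : RotForm (dot q) (e + 1)) (hF : F.Nonzero)
    (hq : (e + 1) + (e + 1) / 4 ≤ q) : F.Survives :=
  Pool.Agent.HAF2.survives_range q e F hF hq

end Pool.Agent.Results.MP_edd9c2_gt.AllClassesRange
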