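import Pool.Agent.HAF3.EulC

/-!
# Every class of degree at most `2q` outside the Pontrjagin algebra survives

Let `F` be a form of degree `d` on the Lie algebra of `SO(q)`, symmetric and invariant under
`SO(q)`, with `d ≤ q`. If `F(ρXρ⁻¹, ..., ρXρ⁻¹) ≠ F(X, ..., X)` for some skew-symmetric `X` and
some orthogonal `ρ` (that is, the class of `F` in `H^{2d}(BSO(q); ℝ)` is not invariant under
`O(q)`, so it is not a polynomial in the Pontrjagin classes), then there is a smooth
codimension `q` Haefliger structure with oriented normal bundle on a manifold, and a metric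
connection on the normal bundle, whose Chern-Weil form `F(Ω)` is not exact.
-/

namespace Pool.Agent.Results.MP_edd9c2_gt.EulerPart

open Pool.Agent.HAF2.St

theorem result (q e : ℕ) (F : RotForm (dot q) (e + 1))
    (ρ : (Fin q → ℝ) ≃L[ℝ] (Fin q → ℝ)) (hρ : ∀ v, dot q (ρ v) (ρ v) = dot q v v)
    (X : (Fin q → ℝ) →L[ℝ] (Fin q → ℝ)) (hX : IsSkew (dot q) X)
    (hF : F.val (fun _ => (ρ : (Fin q → ℝ) →L[ℝ] (Fin q → ℝ)) ∘L X ∘L
      (ρ.symm : (Fin q → ℝ) →L[ℝ] (Fin q → ℝ))) ≠ F.val (fun _ => X))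
    (hq : e + 1 ≤ q) : F.Survives :=
  Pool.Agent.HAF3.survives_euler q e F ρ hρ X hX hF hq

end Pool.Agent.Results.MP_edd9c2_gt.EulerPart
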