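import Pool.Agent.HAF2.Conv

/-!
# Classes of `BSO(q)` with a monomial of small exponents survive on Haefliger structures

Let `F` be an invariant symmetric form of degree `d = e + 1` on the Lie algebra of `SO(q)`, and
`P(x) = F(X(x), ..., X(x))` the polynomial in the Pontrjagin roots `x_0, x_1, ...` that it induces
on the standard maximal torus. If the coefficient of some monomial `x_{r 0} ⋯ x_{r e}` in `P` is
nonzero and `d` plus the number of variables of exponent at least `3` in this monomial is at most
`q`, then there is a smooth codimension `q` Haefliger structure with oriented normal bundle on a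
manifold, and a metric connection on the normal bundle, whose Chern-Weil form `F(Ω)` is not exact.
-/

namespace Pool.Agent.Results.MP_edd9c2_gt.MonomialCriterion

open Pool.Agent.HAF2.St
open Pool.Agent.HaefligerClasses (torusElement)

theorem result (q e : ℕ) (F : RotForm (dot q) (e + 1)) (r : Fin (e + 1) → Fin (q / 2))
    (hr : F.val (fun s => torusElement q (Pi.single (r s) 1)) ≠ 0)
    (hq : (e + 1) + (Finset.univ.filter fun j =>
      3 ≤ (Finset.univ.filter fun s => r s = j).card).card ≤ q) : F.Survives :=
  Pool.Agent.HAF2.survives_monomial q e F r hr hq

end Pool.Agent.Results.MP_edd9c2_gt.MonomialCriterion
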